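import Pool.Agent.H67.Helleseth2

/-!
# The product of the distinct correlation values and the value `-1`
-/

set_option autoImplicit false

open Finset

namespace Pool.Agent.Results.MP_3fbcfa_nt.ProductOfValues

open Pool.Agent.H67.Hel in
theorem result (p n : ℕ) (hp : p.Prime) (hq : 2 < p ^ n)
    (F : Type) [Field F] [Fintype F] [DecidableEq F] [Algebra (ZMod p) F]
    (hF : Fintype.card F = p ^ n)
    (d : ℤ) (hd : Int.gcd d ((p : ℤ) ^ n - 1) = 1) (hd1 : d ≡ 1 [ZMOD ((p : ℤ) - 1)]) :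
    ∃ W : F → ℤ,
      (∀ a : F, ∑ x ∈ Finset.univ.filter (fun x : F => x ≠ 0),
        Complex.exp (2 * Real.pi * Complex.I *
          ((Algebra.trace (ZMod p) F (a * x - x ^ d)).val : ℂ) / p) = (W a : ℂ) - 1) ∧
      (¬ ((p : ℤ) ^ n) ^ 2 ∣
          ∏ v ∈ ((Finset.univ.filter (fun a : F => a ≠ 0)).image W).erase 0, v →
        ∃ a : F, a ≠ 0 ∧
          ∑ x ∈ Finset.univ.filter (fun x : F => x ≠ 0),
            Complex.exp (2 * Real.pi * Complex.I *
              ((Algebra.trace (ZMod p) F (a * x - x ^ d)).val : ℂ) / p) = -1) ∧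
      (∀ e v : ℕ,
        ¬ (p : ℤ) ^ (e + 1) ∣
          ∏ v ∈ ((Finset.univ.filter (fun a : F => a ≠ 0)).image W).erase 0, v →
        (∀ a : F, a ≠ 0 → W a ≠ 0 → ¬ (p : ℤ) ^ (v + 1) ∣ W a) →
        p ^ (min (2 * n - e) (n - v)) ∣
          (Finset.univ.filter (fun a : F => a ≠ 0 ∧ W a = 0)).card + 1) := by
  haveI : Fact p.Prime := ⟨hp⟩
  have hd' : Int.gcd d ((Fintype.card F : ℤ) - 1) = 1 := by
    rw [hF]; push_cast; exact hd
  have hq' : 2 < Fintype.card F := by rw [hF]; exact hq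
  have hd0 := d_ne_zero hq' hd'
  have key : ∀ a : F, ∑ x ∈ Finset.univ.filter (fun x : F => x ≠ 0),
        Complex.exp (2 * Real.pi * Complex.I *
          ((Algebra.trace (ZMod p) F (a * x - x ^ d)).val : ℂ) / p) = (W p d a : ℂ) - 1 := by
    intro a
    rw [← Wc_eq hd1 a]
    unfold Wc
    simp only [psi_eq_exp]
    rw [← Finset.add_sum_erase univ _ (mem_univ (0 : F)), Finset.filter_ne' univ (0 : F)]
    rw [mul_zero, zero_zpow d hd0, sub_zero, map_zero]
    simp
  refine ⟨W p d, key, ?_, ?_⟩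
  · intro h
    rw [← pow_mul, mul_comm n 2] at h
    obtain ⟨a, ha, h0⟩ := main_zero hq' hF hd' hd1 h
    refine ⟨a, ha, ?_⟩
    rw [key, h0]
    simp
  · intro e v he hv
    have := main_congr hq' hF hd' hd1 he hv
    exact_mod_cast this

end Pool.Agent.Results.MP_3fbcfa_nt.ProductOfValues
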